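import Pool.Agent.Helper76.PC.Stmts

/-!
pc_mods FILL: one more neighbour of a vertex of an embedded configuration.
-/

set_option autoImplicit false

namespace Pool.Agent.Helper76.PC

open Finset

/-- the change made by `addNb` on one record -/
def fill_step (x y : ℕ) (r : Vx) : Vx :=
  bif Nat.beq r.id x && !(memB y r.nb) then ⟨r.id, r.sd, max r.lo (lenN r.nb + 1), r.hi, y :: r.nb⟩ else r

theorem fill_addNb_eq (x y : ℕ) (K : Cfg) : addNb x y K = K.map (fill_step x y) := by
  induction K with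
  | nil => rfl
  | cons r K ih => simp only [addNb, List.map_cons, ih]; rfl

theorem fill_mem (x y : ℕ) (K : Cfg) (s : Vx) :
    s ∈ addNb x y K ↔ ∃ r ∈ K, fill_step x y r = s := by
  rw [fill_addNb_eq, List.mem_map]

theorem fill_id (x y : ℕ) (r : Vx) : (fill_step x y r).id = r.id := by
  unfold fill_step
  cases (Nat.beq r.id x && !(memB y r.nb)) <;> rfl

theorem fill_sd (x y : ℕ) (r : Vx) : (fill_step x y r).sd = r.sd := by
  unfold fill_step
  cases (Nat.beq r.id x && !(memB y r.nb)) <;> rfl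

theorem fill_hi (x y : ℕ) (r : Vx) : (fill_step x y r).hi = r.hi := by
  unfold fill_step
  cases (Nat.beq r.id x && !(memB y r.nb)) <;> rfl

/-- the two cases of a step -/
theorem fill_cases (h1 : ST_LST) (x y : ℕ) (r : Vx) :
    (r.id = x ∧ y ∉ r.nb ∧ (fill_step x y r).nb = y :: r.nb ∧
      (fill_step x y r).lo = max r.lo (r.nb.length + 1)) ∨ fill_step x y r = r := by
  by_cases hx : r.id = x
  · by_cases hy : y ∈ r.nb
    · right
      have h2 : memB y r.nb = true := (h1.1 y r.nb).2 hy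
      unfold fill_step
      simp [h2]
    · left
      have h2 : memB y r.nb = false := by
        cases h3 : memB y r.nb
        · rfl
        · exact absurd ((h1.1 y r.nb).1 h3) hy
      have h4 : Nat.beq r.id x = true := by rw [hx]; exact Nat.beq_refl x
      refine ⟨hx, hy, ?_, ?_⟩
      · unfold fill_step
        simp [h2, h4]
      · unfold fill_step
        simp [h2, h4, h1.2.1 r.nb]
  · right
    have h4 : Nat.beq r.id x = false := by
      cases h5 : Nat.beq r.id x
      · rfl
      · exact absurd (Nat.eq_of_beq_eq_true h5) hx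
    unfold fill_step
    simp [h4]

theorem fill_count (φ : ℕ → ℕ) (S : Finset ℕ) (l : List ℕ) (hn : l.Nodup)
    (hinj : ∀ a ∈ l, ∀ b ∈ l, φ a = φ b → a = b) (hm : ∀ a ∈ l, φ a ∈ S) : l.length ≤ S.card := by
  rw [← List.toFinset_card_of_nodup hn, ← Finset.card_image_of_injOn (f := φ) (s := l.toFinset)]
  · apply Finset.card_le_card
    intro z hz
    rw [Finset.mem_image] at hz
    obtain ⟨a, ha, rfl⟩ := hz
    exact hm a (List.mem_toFinset.1 ha)
  · intro a ha b hb hab
    exact hinj a (List.mem_toFinset.1 ha) b (List.mem_toFinset.1 hb) hab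

/-- addition of a known neighbour -/
theorem fill_addNb (h1 : ST_LST) (G : Gr) (φ : ℕ → ℕ) (f : Bool) (K : Cfg) (h : Emb G φ f K)
    (x y : ℕ) (q : Vx) (hq : q ∈ K) (hqy : q.id = y) (hxy : φ y ∈ G.N (φ x)) :
    Emb G φ f (addNb x y K) := by
  have hid : ∀ r ∈ K, ∀ z ∈ r.nb, ∀ q' ∈ K, φ q'.id = φ z → q'.id = z := by
    intro r hr z hz q' hq' he
    obtain ⟨p, hp, hpz⟩ := h.cl r hr z hz
    rw [← hpz] at he ⊢
    exact h.inj q' hq' p hp he
  constructor
  · intro s hs
    obtain ⟨r, hr, rfl⟩ := (fill_mem x y K s).1 hs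
    rw [fill_id]
    exact h.memV r hr
  · intro s hs
    obtain ⟨r, hr, rfl⟩ := (fill_mem x y K s).1 hs
    rw [fill_id, fill_sd]
    exact h.sd r hr
  · intro s hs
    obtain ⟨r, hr, rfl⟩ := (fill_mem x y K s).1 hs
    rcases fill_cases h1 x y r with ⟨c1, c2, c3, c4⟩ | c
    · rw [fill_id, c4]
      apply max_le (h.lo r hr)
      have h5 := fill_count φ (G.N (φ r.id)) (y :: r.nb) (List.nodup_cons.2 ⟨c2, h.nd r hr⟩) (by
        intro a ha b hb hab
        rcases List.mem_cons.1 ha with ha | ha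
        · rcases List.mem_cons.1 hb with hb | hb
          · rw [ha, hb]
          · rw [ha, ← hqy] at hab ⊢
            exact hid r hr b hb q hq hab
        · rcases List.mem_cons.1 hb with hb | hb
          · rw [hb, ← hqy] at hab ⊢
            exact (hid r hr a ha q hq hab.symm).symm
          · obtain ⟨p, hp, hpa⟩ := h.cl r hr a ha
            rw [← hpa] at hab ⊢
            exact hid r hr b hb p hp hab) (by
        intro a ha
        rcases List.mem_cons.1 ha with ha | ha
        · rw [ha, c1]; exact hxy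
        · exact h.adj r hr a ha)
      exact h5
    · rw [c]; exact h.lo r hr
  · intro s hs
    obtain ⟨r, hr, rfl⟩ := (fill_mem x y K s).1 hs
    rw [fill_id, fill_hi]
    exact h.hi r hr
  · intro s hs
    obtain ⟨r, hr, rfl⟩ := (fill_mem x y K s).1 hs
    rcases fill_cases h1 x y r with ⟨c1, c2, c3, c4⟩ | c
    · rw [c3]; exact List.nodup_cons.2 ⟨c2, h.nd r hr⟩
    · rw [c]; exact h.nd r hr
  · intro s hs z hz
    obtain ⟨r, hr, rfl⟩ := (fill_mem x y K s).1 hs
    rcases fill_cases h1 x y r with ⟨c1, c2, c3, c4⟩ | c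
    · rw [fill_id]
      rw [c3] at hz
      rcases List.mem_cons.1 hz with hz | hz
      · rw [hz, c1]; exact hxy
      · exact h.adj r hr z hz
    · rw [c] at hz ⊢; exact h.adj r hr z hz
  · intro s hs z hz
    obtain ⟨r, hr, rfl⟩ := (fill_mem x y K s).1 hs
    have h6 : z = y ∨ z ∈ r.nb := by
      rcases fill_cases h1 x y r with ⟨c1, c2, c3, c4⟩ | c
      · rw [c3] at hz
        exact List.mem_cons.1 hz
      · rw [c] at hz; exact Or.inr hz
    rcases h6 with h6 | h6
    · refine ⟨fill_step x y q, (fill_mem x y K _).2 ⟨q, hq, rfl⟩, ?_⟩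
      rw [fill_id, hqy, h6]
    · obtain ⟨p, hp, hpz⟩ := h.cl r hr z h6
      refine ⟨fill_step x y p, (fill_mem x y K _).2 ⟨p, hp, rfl⟩, ?_⟩
      rw [fill_id, hpz]
  · intro s hs t ht
    obtain ⟨r, hr, rfl⟩ := (fill_mem x y K s).1 hs
    obtain ⟨q', hq', rfl⟩ := (fill_mem x y K t).1 ht
    rw [fill_id, fill_id]
    exact h.inj r hr q' hq'

theorem fill_joinC (h1 : ST_LST) (G : Gr) (φ : ℕ → ℕ) (f : Bool) (K : Cfg) (h : Emb G φ f K)
    (r q : Vx) (hr : r ∈ K) (hq : q ∈ K) (hxy : φ q.id ∈ G.N (φ r.id)) :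
    Emb G φ f (joinC r.id q.id K) := by
  have h2 : Emb G φ f (addNb q.id r.id K) :=
    fill_addNb h1 G φ f K h q.id r.id r hr rfl (G.symm _ _ hxy)
  exact fill_addNb h1 G φ f _ h2 r.id q.id (fill_step q.id r.id q)
    ((fill_mem _ _ K _).2 ⟨q, hq, rfl⟩) (fill_id _ _ _) hxy

theorem fill_cands (K0 : Cfg) (v : Vx) (K : Cfg) (q : Vx) (hq : q ∈ K) (h1 : xor q.sd v.sd = true)
    (h2 : memB q.id v.nb = false) (h3 : nonadjR K0 v q = false) : q.id ∈ cands K0 v K := by
  induction K with
  | nil => simp at hq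
  | cons p K ih =>
    rcases List.mem_cons.1 hq with hq | hq
    · subst hq
      simp [cands, h1, h2, h3]
    · have h4 := ih hq
      simp only [cands]
      cases (xor p.sd v.sd && !(memB p.id v.nb) && !(nonadjR K0 v p))
      · exact h4
      · exact List.mem_cons_of_mem _ h4

/-- the new vertex -/
theorem fill_new (h1 : ST_LST) (G : Gr) (φ : ℕ → ℕ) (f : Bool) (K : Cfg) (h : Emb G φ f K)
    (r : Vx) (hr : r ∈ K) (m dm x0 : ℕ) (hm : ∀ s ∈ K, s.id ≠ m) (hx0 : x0 ∈ G.N (φ r.id))
    (hnew : ∀ s ∈ K, φ s.id ≠ x0) (hd : dm ≤ (G.N x0).card ∧ (G.N x0).card ≤ 5) :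
    Emb G (Function.update φ m x0) f (joinNew r.id m dm r.sd K) := by
  set ψ := Function.update φ m x0 with hψ
  have e1 : ∀ s ∈ K, ψ s.id = φ s.id := by
    intro s hs
    rw [hψ, Function.update_of_ne (hm s hs)]
  have e2 : ∀ s ∈ K, ∀ z ∈ s.nb, ψ z = φ z := by
    intro s hs z hz
    obtain ⟨p, hp, hpz⟩ := h.cl s hs z hz
    rw [← hpz]
    exact e1 p hp
  have e3 : ψ m = x0 := by rw [hψ, Function.update_self]
  have hmem : ∀ s, s ∈ joinNew r.id m dm r.sd K ↔
      (∃ t ∈ K, fill_step r.id m t = s) ∨ s = ⟨m, !r.sd, dm, 5, [r.id]⟩ := by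
    intro s
    unfold joinNew
    rw [List.mem_append, fill_mem, List.mem_singleton]
  have hmnb : ∀ s ∈ K, m ∉ s.nb := by
    intro s hs hms
    obtain ⟨p, hp, hpz⟩ := h.cl s hs m hms
    exact hm p hp hpz
  constructor
  · intro s hs
    rcases (hmem s).1 hs with ⟨t, ht, rfl⟩ | rfl
    · rw [fill_id, e1 t ht]; exact h.memV t ht
    · show ψ m ∈ G.V
      rw [e3]
      exact G.mem _ _ (G.symm _ _ hx0)
  · intro s hs
    rcases (hmem s).1 hs with ⟨t, ht, rfl⟩ | rfl
    · rw [fill_id, fill_sd, e1 t ht]; exact h.sd t ht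
    · show side (ψ m) = xor f (!r.sd)
      rw [e3]
      have h2 := G.bip _ _ hx0
      rw [h.sd r hr] at h2
      cases h3 : side x0 <;> cases h4 : f <;> cases h5 : r.sd <;> simp_all
  · intro s hs
    rcases (hmem s).1 hs with ⟨t, ht, rfl⟩ | rfl
    · rcases fill_cases h1 r.id m t with ⟨c1, c2, c3, c4⟩ | c
      · rw [fill_id, c4, e1 t ht]
        apply max_le (h.lo t ht)
        have h5 := fill_count ψ (G.N (φ t.id)) (m :: t.nb) (List.nodup_cons.2 ⟨c2, h.nd t ht⟩) (by
          intro a ha b hb hab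
          rcases List.mem_cons.1 ha with ha | ha
          · rcases List.mem_cons.1 hb with hb | hb
            · rw [ha, hb]
            · exfalso
              obtain ⟨p, hp, hpb⟩ := h.cl t ht b hb
              rw [ha, e3, ← hpb, e1 p hp] at hab
              exact hnew p hp hab.symm
          · rcases List.mem_cons.1 hb with hb | hb
            · exfalso
              obtain ⟨p, hp, hpb⟩ := h.cl t ht a ha
              rw [hb, e3, ← hpb, e1 p hp] at hab
              exact hnew p hp hab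
            · obtain ⟨p, hp, hpa⟩ := h.cl t ht a ha
              obtain ⟨p', hp', hpb⟩ := h.cl t ht b hb
              rw [e2 t ht a ha, e2 t ht b hb, ← hpa, ← hpb] at hab
              rw [← hpa, ← hpb]
              exact h.inj p hp p' hp' hab) (by
          intro a ha
          rcases List.mem_cons.1 ha with ha | ha
          · rw [ha, e3, c1]; exact hx0
          · rw [e2 t ht a ha]; exact h.adj t ht a ha)
        exact h5
      · rw [c, e1 t ht]; exact h.lo t ht
    · show dm ≤ (G.N (ψ m)).card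
      rw [e3]; exact hd.1
  · intro s hs
    rcases (hmem s).1 hs with ⟨t, ht, rfl⟩ | rfl
    · rw [fill_id, fill_hi, e1 t ht]; exact h.hi t ht
    · show (G.N (ψ m)).card ≤ 5
      rw [e3]; exact hd.2
  · intro s hs
    rcases (hmem s).1 hs with ⟨t, ht, rfl⟩ | rfl
    · rcases fill_cases h1 r.id m t with ⟨c1, c2, c3, c4⟩ | c
      · rw [c3]; exact List.nodup_cons.2 ⟨c2, h.nd t ht⟩
      · rw [c]; exact h.nd t ht
    · exact List.nodup_singleton _
  · intro s hs z hz
    rcases (hmem s).1 hs with ⟨t, ht, rfl⟩ | rfl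
    · rcases fill_cases h1 r.id m t with ⟨c1, c2, c3, c4⟩ | c
      · rw [fill_id, e1 t ht]
        rw [c3] at hz
        rcases List.mem_cons.1 hz with hz | hz
        · rw [hz, e3, c1]; exact hx0
        · rw [e2 t ht z hz]; exact h.adj t ht z hz
      · rw [c] at hz ⊢
        rw [e1 t ht, e2 t ht z hz]; exact h.adj t ht z hz
    · have hz' : z = r.id := List.mem_singleton.1 hz
      show ψ z ∈ G.N (ψ m)
      rw [hz', e3, e1 r hr]
      exact G.symm _ _ hx0
  · intro s hs z hz
    rcases (hmem s).1 hs with ⟨t, ht, rfl⟩ | rfl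
    · have h6 : z = m ∨ z ∈ t.nb := by
        rcases fill_cases h1 r.id m t with ⟨c1, c2, c3, c4⟩ | c
        · rw [c3] at hz
          exact List.mem_cons.1 hz
        · rw [c] at hz; exact Or.inr hz
      rcases h6 with h6 | h6
      · exact ⟨_, (hmem _).2 (Or.inr rfl), h6.symm⟩
      · obtain ⟨p, hp, hpz⟩ := h.cl t ht z h6
        refine ⟨fill_step r.id m p, (hmem _).2 (Or.inl ⟨p, hp, rfl⟩), ?_⟩
        rw [fill_id, hpz]
    · have hz' : z = r.id := List.mem_singleton.1 hz
      refine ⟨fill_step r.id m r, (hmem _).2 (Or.inl ⟨r, hr, rfl⟩), ?_⟩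
      rw [fill_id, hz']
  · intro s hs t ht
    rcases (hmem s).1 hs with ⟨s', hs', rfl⟩ | rfl
    · rcases (hmem t).1 ht with ⟨t', ht', rfl⟩ | rfl
      · rw [fill_id, fill_id, e1 s' hs', e1 t' ht']
        exact h.inj s' hs' t' ht'
      · intro he
        exfalso
        rw [fill_id, e1 s' hs'] at he
        exact hnew s' hs' (he.trans e3)
    · rcases (hmem t).1 ht with ⟨t', ht', rfl⟩ | rfl
      · intro he
        exfalso
        rw [fill_id, e1 t' ht'] at he
        exact hnew t' ht' (he.symm.trans e3)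
      · intro _
        rfl

theorem st_FILL (h1 : ST_LST) (_h2 : ST_FULL) (h3 : ST_NADJ) : ST_FILL := by
  intro G φ f K h r hr hlen m dm hm hdeg
  have hcard : (r.nb.toFinset.image φ).card < (G.N (φ r.id)).card :=
    lt_of_le_of_lt (Finset.card_image_le.trans (List.toFinset_card_le _))
      (lt_of_lt_of_le hlen (h.lo r hr))
  obtain ⟨x0, hx0, hx1⟩ := Finset.exists_mem_notMem_of_card_lt_card hcard
  have hm' : ∀ s ∈ K, s.id ≠ m := h1.2.2.2.2.2.2.2.1 m K hm
  by_cases hA : ∃ q ∈ K, φ q.id = x0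
  · right
    obtain ⟨q, hq, rfl⟩ := hA
    refine ⟨q.id, ?_, fill_joinC h1 G φ f K h r q hr hq hx0⟩
    apply fill_cands K r K q hq
    · have h4 := G.bip _ _ hx0
      rw [h.sd r hr, h.sd q hq] at h4
      cases h5 : f <;> cases h6 : q.sd <;> cases h7 : r.sd <;> simp_all
    · cases h5 : memB q.id r.nb
      · rfl
      · exfalso
        apply hx1
        rw [Finset.mem_image]
        exact ⟨q.id, List.mem_toFinset.2 ((h1.1 _ _).1 h5), rfl⟩
    · cases h5 : nonadjR K r q
      · rfl
      · exact absurd hx0 (h3 G φ f K h r hr q hq h5)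
  · left
    push Not at hA
    exact ⟨_, fill_new h1 G φ f K h r hr m dm x0 hm' hx0 hA
      (hdeg x0 (G.mem _ _ (G.symm _ _ hx0)))⟩

end Pool.Agent.Helper76.PC
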